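import Pool.Agent.Helper431_heights.Basic

set_option autoImplicit false

/-!
# The maximal height of divisors of `x^(p q^b) - 1` is at least `p (p + 1) / 2` for `b ≥ 3`

The divisor `Φ_p Φ_q Φ_{p q²} Φ_{q³}` has a coefficient of absolute value at least
`p (p + 1) / 2`.
-/

open Polynomial
open Pool.Agent.Helper431Heights

namespace Pool.Agent.Results.MP_7a0dfe_nt.QuadraticLower

/-- coefficients of a geometric sum -/
theorem coeff_geom (q n : ℕ) : (∑ j ∈ Finset.range q, (X : ℤ[X]) ^ j).coeff n = if n < q then 1 else 0 := by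
  rw [finsetSum_coeff]
  simp only [coeff_X_pow]
  simp

/-- the coefficient of the product of two geometric sums at `p - 1` -/
theorem coeff_A {p q : ℕ} (hp : 0 < p) (hpq : p < q) :
    ((∑ i ∈ Finset.range p, (X : ℤ[X]) ^ i) * ∑ j ∈ Finset.range q, (X : ℤ[X]) ^ j).coeff (p - 1) = p := by
  rw [Finset.sum_mul, finsetSum_coeff]
  have : ∀ i ∈ Finset.range p,
      ((X : ℤ[X]) ^ i * ∑ j ∈ Finset.range q, (X : ℤ[X]) ^ j).coeff (p - 1) = 1 := by
    intro i hi
    have hi' := Finset.mem_range.mp hi
    rw [coeff_X_pow_mul', if_pos (by omega), coeff_geom, if_pos (by omega)]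
  rw [Finset.sum_congr rfl this]
  simp

/-- the coefficient of `Φ_p Φ_q G(x^q)` at `q k + p - 1` is `p` times that of `G` at `k` -/
theorem coeff_f {p q : ℕ} (hp : 0 < p) (hpq : p < q) (G : ℤ[X]) (k : ℕ) :
    ((∑ i ∈ Finset.range p, (X : ℤ[X]) ^ i) * (∑ j ∈ Finset.range q, (X : ℤ[X]) ^ j) *
      expand ℤ q G).coeff (q * k + (p - 1)) = p * G.coeff k := by
  have hq : 0 < q := by omega
  rw [Finset.sum_mul, Finset.sum_mul, finsetSum_coeff]
  have : ∀ i ∈ Finset.range p,
      ((X : ℤ[X]) ^ i * (∑ j ∈ Finset.range q, (X : ℤ[X]) ^ j) * expand ℤ q G).coeff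
        (q * k + (p - 1)) = G.coeff k := by
    intro i hi
    have hi' := Finset.mem_range.mp hi
    rw [mul_assoc, coeff_X_pow_mul', if_pos (by omega), Finset.sum_mul, finsetSum_coeff]
    rw [Finset.sum_eq_single (p - 1 - i)]
    · rw [coeff_X_pow_mul', if_pos (by omega), coeff_expand hq]
      have h1 : q * k + (p - 1) - i - (p - 1 - i) = q * k := by omega
      rw [h1, if_pos (dvd_mul_right q k), Nat.mul_div_cancel_left _ hq]
    · intro j hj hne
      have hj' := Finset.mem_range.mp hj
      rw [coeff_X_pow_mul']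
      split_ifs with hle
      · rw [coeff_expand hq, if_neg]
        rintro ⟨c, hc⟩
        have h2 : q * c + (i + j) = q * k + (p - 1) := by omega
        rcases lt_trichotomy c k with h | h | h
        · have : q * (c + 1) ≤ q * k := Nat.mul_le_mul_left q h
          have : q * c + q ≤ q * k := by linarith [mul_add q c 1]
          omega
        · subst h; omega
        · have : q * (k + 1) ≤ q * c := Nat.mul_le_mul_left q h
          have : q * k + q ≤ q * c := by linarith [mul_add q k 1]
          omega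
      · rfl
    · intro h
      exact absurd (Finset.mem_range.mpr (by omega)) h
  rw [Finset.sum_congr rfl this]
  simp

/-- For all odd primes `p < q` and every `b ≥ 3`, `B (p q^b) ≥ p (p + 1) / 2`. -/
theorem result : ∀ p q b : ℕ, p.Prime → q.Prime → p ≠ 2 → p < q → 3 ≤ b →
    p * (p + 1) ≤ 2 * B (p * q ^ b) := by
  intro p q b hp hq hp2 hpq hb
  have hp3 : 3 ≤ p := by
    have := hp.two_le
    omega
  have : Fact p.Prime := ⟨hp⟩
  have : Fact q.Prime := ⟨hq⟩
  have hq0 : 0 < q := hq.pos
  have hndvd : ¬ q ∣ p := fun h => by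
    have := Nat.le_of_dvd hp.pos h
    omega
  set A : ℤ[X] := (∑ i ∈ Finset.range p, (X : ℤ[X]) ^ i) * ∑ j ∈ Finset.range q, (X : ℤ[X]) ^ j
    with hA
  have hAc : A = cyclotomic p ℤ * cyclotomic q ℤ := by
    rw [hA, cyclotomic_prime, cyclotomic_prime]
  set G : ℤ[X] := cyclotomic (p * q) ℤ * cyclotomic (q * q) ℤ with hG
  -- the divisor
  have hdvd : A * expand ℤ q G ∣ X ^ (p * q ^ b) - 1 := by
    have e1 : expand ℤ q (cyclotomic (p * q) ℤ) = cyclotomic (p * q * q) ℤ :=
      cyclotomic_expand_eq_cyclotomic hq (dvd_mul_left q p) ℤ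
    have e2 : expand ℤ q (cyclotomic (q * q) ℤ) = cyclotomic (q * q * q) ℤ :=
      cyclotomic_expand_eq_cyclotomic hq (dvd_mul_left q q) ℤ
    rw [hG, map_mul, e1, e2, hAc]
    have hpos : 0 < p * q ^ b := Nat.mul_pos hp.pos (pow_pos hq0 b)
    rw [← prod_cyclotomic_eq_X_pow_sub_one hpos ℤ]
    have hn1 : p ≠ q := by omega
    have hn2 : p ≠ p * q * q := by
      intro h
      have h1 : p * 1 < p * (q * q) := by
        apply Nat.mul_lt_mul_of_pos_left _ hp.pos
        nlinarith [hq.two_le]
      nlinarith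
    have hn3 : p ≠ q * q * q := by
      intro h
      have : q * 1 ≤ q * (q * q) := Nat.mul_le_mul_left q (by nlinarith [hq.two_le])
      nlinarith
    have hn4 : q ≠ p * q * q := by
      intro h
      have : q * 1 < q * (p * q) := by
        apply Nat.mul_lt_mul_of_pos_left _ hq0
        nlinarith [hq.two_le, hp.two_le]
      nlinarith
    have hn5 : q ≠ q * q * q := by
      intro h
      have : q * 1 < q * (q * q) := by
        apply Nat.mul_lt_mul_of_pos_left _ hq0
        nlinarith [hq.two_le]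
      nlinarith
    have hn6 : p * q * q ≠ q * q * q := by
      intro h
      have h1 := Nat.eq_of_mul_eq_mul_right hq0 h
      have h2 := Nat.eq_of_mul_eq_mul_right hq0 h1
      omega
    have hprod : cyclotomic p ℤ * cyclotomic q ℤ *
        (cyclotomic (p * q * q) ℤ * cyclotomic (q * q * q) ℤ) =
        ∏ i ∈ ({p, q, p * q * q, q * q * q} : Finset ℕ), cyclotomic i ℤ := by
      rw [Finset.prod_insert, Finset.prod_insert, Finset.prod_insert, Finset.prod_singleton]
      · ring
      · simpa using hn6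
      · simp only [Finset.mem_insert, Finset.mem_singleton, not_or]
        exact ⟨hn4, hn5⟩
      · simp only [Finset.mem_insert, Finset.mem_singleton, not_or]
        exact ⟨hn1, hn2, hn3⟩
    rw [hprod]
    apply Finset.prod_dvd_prod_of_subset
    intro d hd
    simp only [Finset.mem_insert, Finset.mem_singleton] at hd
    rw [Nat.mem_divisors]
    refine ⟨?_, hpos.ne'⟩
    have hqb : q ^ 3 ∣ q ^ b := pow_dvd_pow q hb
    rcases hd with rfl | rfl | rfl | rfl
    · exact dvd_mul_right _ _
    · exact dvd_mul_of_dvd_right (dvd_pow_self _ (by omega)) _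
    · rw [mul_assoc]
      apply mul_dvd_mul_left
      exact dvd_trans (by rw [← pow_two]; exact pow_dvd_pow q (by omega)) hqb
    · exact dvd_mul_of_dvd_right (dvd_trans (by rw [← pow_three']) hqb) _
  -- the relation for `G`
  have hrel : G * cyclotomic p ℤ = expand ℤ q A := by
    have e1 : expand ℤ q (cyclotomic p ℤ) = cyclotomic (p * q) ℤ * cyclotomic p ℤ :=
      cyclotomic_expand_eq_cyclotomic_mul hq hndvd ℤ
    have e2 : expand ℤ q (cyclotomic q ℤ) = cyclotomic (q * q) ℤ :=
      cyclotomic_expand_eq_cyclotomic hq dvd_rfl ℤ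
    rw [hAc, map_mul, e1, e2, hG]
    ring
  have hrel2 : G * (X ^ p - 1) = expand ℤ q A * (X - 1) := by
    have hgs : (∑ i ∈ Finset.range p, (X : ℤ[X]) ^ i) * (X - 1) = X ^ p - 1 := geom_sum_mul X p
    calc G * (X ^ p - 1) = G * ((∑ i ∈ Finset.range p, (X : ℤ[X]) ^ i) * (X - 1)) := by rw [hgs]
      _ = G * cyclotomic p ℤ * (X - 1) := by rw [cyclotomic_prime ℤ p]; ring
      _ = expand ℤ q A * (X - 1) := by rw [hrel]
  -- the coefficient at `q (p - 1)`
  set M := q * (p - 1) with hM
  have hMp : p ≤ M := by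
    have : q * 2 ≤ q * (p - 1) := Nat.mul_le_mul_left q (by omega)
    omega
  have hc : G.coeff (M - p) - G.coeff M = - (p : ℤ) := by
    have h := congrArg (fun f : ℤ[X] => f.coeff M) hrel2
    simp only [mul_sub, mul_one, coeff_sub] at h
    rw [coeff_mul_X_pow', if_pos hMp, coeff_expand hq0, if_pos (dvd_mul_right _ _)] at h
    have hM1 : M = (M - 1) + 1 := by omega
    have h2 : (expand ℤ q A * X).coeff M = 0 := by
      rw [hM1, coeff_mul_X, coeff_expand hq0, if_neg]
      intro hd
      have h3 : q ∣ M - (M - 1) := Nat.dvd_sub (dvd_mul_right _ _) hd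
      have h4 : M - (M - 1) = 1 := by omega
      rw [h4] at h3
      have := Nat.le_of_dvd one_pos h3
      have := hq.two_le
      omega
    rw [h2, hM, Nat.mul_div_cancel_left _ hq0, hA, coeff_A hp.pos hpq, ← hM] at h
    linarith
  -- conclusion
  have hpos : 0 < p * q ^ b := Nat.mul_pos hp.pos (pow_pos hq0 b)
  have key : ∀ k, p * (G.coeff k).natAbs ≤ B (p * q ^ b) := by
    intro k
    have h1 := height_le_B hpos hdvd
    have h2 := natAbs_coeff_le_height (A * expand ℤ q G) (q * k + (p - 1))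
    rw [hA, coeff_f hp.pos hpq G k, Int.natAbs_mul, Int.natAbs_natCast, ← hA] at h2
    exact h2.trans h1
  have hodd : Odd p := hp.odd_of_ne_two hp2
  have hbig : p + 1 ≤ 2 * (G.coeff (M - p)).natAbs ∨ p + 1 ≤ 2 * (G.coeff M).natAbs := by
    obtain ⟨t, ht⟩ := hodd
    omega
  rcases hbig with h | h
  · calc p * (p + 1) ≤ p * (2 * (G.coeff (M - p)).natAbs) := Nat.mul_le_mul_left p h
      _ = 2 * (p * (G.coeff (M - p)).natAbs) := by ring
      _ ≤ 2 * B (p * q ^ b) := Nat.mul_le_mul_left 2 (key _)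
  · calc p * (p + 1) ≤ p * (2 * (G.coeff M).natAbs) := Nat.mul_le_mul_left p h
      _ = 2 * (p * (G.coeff M).natAbs) := by ring
      _ ≤ 2 * B (p * q ^ b) := Nat.mul_le_mul_left 2 (key _)

end Pool.Agent.Results.MP_7a0dfe_nt.QuadraticLower
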